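import Pool.Agent.MP_6a4325_al.H62.Base2

/-!
Generic freeness for finitely generated modules over polycyclic groups, by induction along a
series with cyclic factors.
-/

set_option autoImplicit false

namespace Pool.Agent.MP_6a4325_al.H33

open Pool.Agent.MP_6a4325_al.H62

section Main

variable {k G M : Type} [Field k] [Group G] [AddCommGroup M] [Module k M]

/-- the property holds for all generic characters of `A` -/
def Ev (A : Subgroup G) (P : (G → k) → Prop) : Prop :=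
  ∃ μ : MonoidAlgebra k G, μ ≠ 0 ∧ Supp A μ ∧
    ∀ ψ : G → k, IsCh A ψ → (∀ g, evc ψ g μ ≠ 0) → P ψ

theorem Ev.mono {A : Subgroup G} {P Q : (G → k) → Prop} (h : Ev A P) (hPQ : ∀ ψ, P ψ → Q ψ) :
    Ev A Q := by
  obtain ⟨μ, h0, hs, h⟩ := h
  exact ⟨μ, h0, hs, fun ψ h1 h2 => hPQ ψ (h ψ h1 h2)⟩

theorem Ev.conj {A : Subgroup G} (hA : A.Normal) {P : (G → k) → Prop} (h : Ev A P) :
    Ev A fun ψ => ∀ g, P fun a => ψ (g * a * g⁻¹) := by
  obtain ⟨μ, h0, hs, h⟩ := h
  refine ⟨μ, h0, hs, fun ψ h1 h2 g => h _ ⟨by simpa using h1.1, fun a ha b hb => ?_⟩ fun x => ?_⟩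
  · show ψ (g * (a * b) * g⁻¹) = ψ (g * a * g⁻¹) * ψ (g * b * g⁻¹)
    rw [← h1.2 _ (hA.conj_mem a ha g) _ (hA.conj_mem b hb g)]
    exact congrArg ψ (by group)
  · have e : evc (fun a => ψ (g * a * g⁻¹)) x μ = evc ψ (g * x) μ := by
      unfold evc
      refine Finsupp.sum_congr fun a _ => ?_
      exact congrArg (fun y => μ.coeff a • ψ y) (by group)
    rw [e]
    exact h2 _

variable {ρ : Representation k G M} {A : Subgroup G}

theorem Ev.and (api : HallApi ρ A) {P Q : (G → k) → Prop} (h : Ev A P) (h' : Ev A Q) :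
    Ev A fun ψ => P ψ ∧ Q ψ := by
  obtain ⟨μ, h0, hs, h⟩ := h
  obtain ⟨ν, h0', hs', h'⟩ := h'
  obtain ⟨a, b, c⟩ := api.mul μ ν hs hs' h0 h0'
  refine ⟨μ * ν, a, b, fun ψ h1 h2 => ⟨h ψ h1 fun g e => h2 g ?_, h' ψ h1 fun g e => h2 g ?_⟩⟩
  · rw [c ψ h1 g, e, zero_mul]
  · rw [c ψ h1 g, e, mul_zero]

theorem Ev.all (api : HallApi ρ A) {P : ℕ → (G → k) → Prop} (h : ∀ n, Ev A (P n)) (N : ℕ) :
    Ev A fun ψ => ∀ n ≤ N, P n ψ := by
  induction N with
  | zero => exact (h 0).mono fun ψ hψ n hn => by rwa [Nat.le_zero.1 hn]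
  | succ N ih =>
    refine (ih.and api (h (N + 1))).mono fun ψ hψ n hn => ?_
    rcases Nat.of_le_succ hn with h1 | h1
    · exact hψ.1 n h1
    · rw [h1]
      exact hψ.2

/-- chains of invariant subspaces of a finitely generated module become constant -/
theorem chain_stop (ρ : Representation k G M) (H : Subgroup G)
    (hN : IsNoetherianRing (MonoidAlgebra k H)) (T : Finset M) (Y : ℕ → Submodule k M)
    (hm : Monotone Y) (hi : ∀ n, InvS ρ H (Y n)) (hle : ∀ n, Y n ≤ genS ρ H ↑T) :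
    ∃ N, ∀ n, Y n ≤ Y N := by
  let σ : Representation k H M := ρ.comp H.subtype
  let _ : Module (MonoidAlgebra k H) M :=
    Module.compHom M (σ.asAlgebraHom : MonoidAlgebra k H →+* Module.End k M)
  have hsm : ∀ (x : MonoidAlgebra k H) (u : M), x • u = σ.asAlgebraHom x u := fun _ _ => rfl
  have hsi : ∀ (g : H) (c : k) (u : M), MonoidAlgebra.single g c • u = c • ρ g u := by
    intro g c u
    rw [hsm, Representation.asAlgebraHom_single]
    rfl
  let Z : ℕ → Submodule (MonoidAlgebra k H) M := fun n =>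
    { carrier := Y n
      add_mem' := fun ha hb => (Y n).add_mem ha hb
      zero_mem' := (Y n).zero_mem
      smul_mem' := fun x u hu => by
        induction x using MonoidAlgebra.induction_linear with
        | zero => rw [zero_smul]; exact (Y n).zero_mem
        | add x y hx hy => rw [add_smul]; exact (Y n).add_mem hx hy
        | single g c => rw [hsi]; exact (Y n).smul_mem c (hi n g g.2 u hu) }
  have hZ : ∀ n, Z n ≤ Submodule.span (MonoidAlgebra k H) (↑T : Set M) := fun n u hu => by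
    have h1 : u ∈ genS ρ H ↑T := hle n hu
    clear hu
    induction h1 using Submodule.span_induction with
    | mem x hx =>
      obtain ⟨g, hg, t, ht, rfl⟩ := hx
      have := Submodule.smul_mem _ (MonoidAlgebra.single (⟨g, hg⟩ : H) (1 : k))
        (Submodule.subset_span (R := MonoidAlgebra k H) ht)
      rwa [hsi, one_smul] at this
    | zero => exact zero_mem _
    | add x y _ _ hx hy => exact add_mem hx hy
    | smul c x _ hx =>
      have := Submodule.smul_mem _ (MonoidAlgebra.single (1 : H) c) hx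
      rwa [hsi, OneMemClass.coe_one, map_one] at this
  have hNo : IsNoetherian (MonoidAlgebra k H)
      (Submodule.span (MonoidAlgebra k H) (↑T : Set M)) :=
    isNoetherian_span_of_finite _ T.finite_toSet
  have hfg := isNoetherian_submodule.1 hNo (⨆ n, Z n) (iSup_le hZ)
  obtain ⟨N, hN⟩ := hfg.stabilizes_of_iSup_eq ⟨Z, fun a b hab u hu => hm hab hu⟩ rfl
  refine ⟨N, fun n u hu => ?_⟩
  have h2 : u ∈ ⨆ n, Z n := le_iSup Z n hu
  rw [hN] at h2
  exact h2

theorem InvS_mono {H H' : Subgroup G} (h : H ≤ H') {U : Submodule k M} (hU : InvS ρ H' U) :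
    InvS ρ H U := fun g hg => hU g (h hg)

theorem InvS_inf {H : Subgroup G} {U V : Submodule k M} (hU : InvS ρ H U) (hV : InvS ρ H V) :
    InvS ρ H (U ⊓ V) := fun g hg u hu => ⟨hU g hg u hu.1, hV g hg u hu.2⟩

/-- the statement proved by induction -/
def PH (ρ : Representation k G M) (A H : Subgroup G) : Prop :=
  ∀ (K : Submodule k M) (T : Finset M), InvS ρ H K →
    Ev A fun ψ => StepH ρ A ψ K (K ⊔ genS ρ H ↑T)

/-- one generic element serves a whole chain and all its translates -/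
theorem fam (api : HallApi ρ A) (hA : A.Normal) {H : Subgroup G} (hAH : A ≤ H)
    (hN : IsNoetherianRing (MonoidAlgebra k H)) (hP : PH ρ A H) (T : Finset M)
    (Y : ℕ → Submodule k M) (hm : Monotone Y) (hi : ∀ n, InvS ρ H (Y n)) :
    Ev A fun ψ => ∀ n g, StepH ρ A ψ ((Y n).map (ρ g))
      ((Y n).map (ρ g) ⊔ (genS ρ H ↑T).map (ρ g)) := by
  have hU := invS_genS ρ H (↑T : Set M)
  obtain ⟨N, hN⟩ := chain_stop ρ H hN T (fun n => Y n ⊓ genS ρ H ↑T)
    (fun a b hab => inf_le_inf_right _ (hm hab)) (fun n => InvS_inf (hi n) hU)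
    fun n => inf_le_right
  have h1 := Ev.all api (fun n => hP (Y n ⊓ genS ρ H ↑T) T (InvS_inf (hi n) hU)) N
  have h2 : Ev A fun ψ => ∀ n, StepH ρ A ψ (Y n) (Y n ⊔ genS ρ H ↑T) := by
    refine h1.mono fun ψ hψ n => ?_
    have h3 : StepH ρ A ψ (Y n ⊓ genS ρ H ↑T) (genS ρ H ↑T) := by
      rcases le_total n N with h | h
      · have := hψ n h
        rwa [sup_eq_right.2 inf_le_right] at this
      · have := hψ N le_rfl
        rwa [sup_eq_right.2 inf_le_right,
          le_antisymm (inf_le_inf_right (genS ρ H ↑T) (hm h)) (hN n)] at this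
    have := api.push ψ _ _ (Y n) inf_le_right (InvS_mono hAH (hi n)) le_rfl h3
    rwa [sup_eq_left.2 inf_le_left] at this
  refine (h2.conj hA).mono fun ψ hψ n g => ?_
  have := api.transl _ _ _ g (hψ g n)
  have e : (fun a => ψ (g * (g⁻¹ * a * g) * g⁻¹)) = ψ :=
    funext fun a => congrArg ψ (by group)
  rwa [e, Submodule.map_sup] at this

/-- the sum of `K` and the translates of `U` by the powers of `t` with exponent in `S` -/
def WS (ρ : Representation k G M) (K U : Submodule k M) (t : G) (S : Set ℤ) : Submodule k M :=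
  K ⊔ ⨆ i ∈ S, U.map (ρ (t ^ i))

section W

variable {K U : Submodule k M} {t : G}

theorem le_WS {S : Set ℤ} {i : ℤ} (hi : i ∈ S) : U.map (ρ (t ^ i)) ≤ WS ρ K U t S :=
  le_sup_of_le_right (le_iSup₂_of_le (f := fun i (_ : i ∈ S) => U.map (ρ (t ^ i))) i hi le_rfl)

theorem WS_le {S : Set ℤ} {X : Submodule k M} (hK : K ≤ X)
    (h : ∀ i ∈ S, U.map (ρ (t ^ i)) ≤ X) : WS ρ K U t S ≤ X :=
  sup_le hK (iSup₂_le h)

theorem WS_mono {S S' : Set ℤ} (h : S ⊆ S') : WS ρ K U t S ≤ WS ρ K U t S' :=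
  WS_le le_sup_left fun _ hi => le_WS (h hi)

theorem WS_insert {S S' : Set ℤ} {j : ℤ} (h : ∀ i, i ∈ S' ↔ i ∈ S ∨ i = j) :
    WS ρ K U t S' = WS ρ K U t S ⊔ U.map (ρ (t ^ j)) := by
  refine le_antisymm (WS_le (le_sup_of_le_left le_sup_left) fun i hi => ?_)
    (sup_le (WS_mono fun i hi => (h i).2 (Or.inl hi)) (le_WS ((h j).2 (Or.inr rfl))))
  rcases (h i).1 hi with h1 | h1
  · exact le_sup_of_le_left (le_WS h1)
  · rw [h1]
    exact le_sup_right

theorem WS_iSup {S : ℕ → Set ℤ} {S' : Set ℤ} (h : ∀ i, i ∈ S' ↔ ∃ n, i ∈ S n) :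
    ⨆ n, WS ρ K U t (S n) = WS ρ K U t S' := by
  refine le_antisymm (iSup_le fun n => WS_mono fun i hi => (h i).2 ⟨n, hi⟩)
    (WS_le (le_iSup_of_le 0 le_sup_left) fun i hi => ?_)
  obtain ⟨n, hn⟩ := (h i).1 hi
  exact le_iSup_of_le n (le_WS hn)

theorem map_map (X : Submodule k M) (g h : G) : (X.map (ρ h)).map (ρ g) = X.map (ρ (g * h)) := by
  rw [← Submodule.map_comp, map_mul]
  rfl

theorem WS_map_le (hK : ∀ i : ℤ, ∀ u ∈ K, ρ (t ^ i) u ∈ K) {S S' : Set ℤ} {j : ℤ}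
    (h : ∀ i ∈ S, j + i ∈ S') : (WS ρ K U t S).map (ρ (t ^ j)) ≤ WS ρ K U t S' := by
  rw [Submodule.map_le_iff_le_comap]
  refine WS_le (fun u hu => Submodule.mem_sup_left (hK j u hu)) fun i hi => ?_
  rw [← Submodule.map_le_iff_le_comap, map_map, ← zpow_add]
  exact le_WS (h i hi)

theorem WS_map (hK : ∀ i : ℤ, ∀ u ∈ K, ρ (t ^ i) u ∈ K) {S S' : Set ℤ} {j : ℤ}
    (h : ∀ i, i ∈ S ↔ j + i ∈ S') : (WS ρ K U t S).map (ρ (t ^ j)) = WS ρ K U t S' := by
  refine le_antisymm (WS_map_le hK fun i hi => (h i).1 hi) ?_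
  have h1 : (WS ρ K U t S').map (ρ (t ^ (-j))) ≤ WS ρ K U t S :=
    WS_map_le hK fun i hi => (h _).2 (by rwa [add_neg_cancel_left])
  have h2 := Submodule.map_mono (f := ρ (t ^ j)) h1
  rwa [map_map, ← zpow_add, add_neg_cancel, zpow_zero, map_one, Module.End.one_eq_id,
    Submodule.map_id] at h2

theorem invS_WS {H : Subgroup G} (hK : InvS ρ H K) (hU : InvS ρ H U)
    (ht : ∀ i : ℤ, ∀ h ∈ H, t ^ i * h * (t ^ i)⁻¹ ∈ H) (S : Set ℤ) :
    InvS ρ H (WS ρ K U t S) := fun g hg => by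
  have : WS ρ K U t S ≤ (WS ρ K U t S).comap (ρ g) := by
    refine WS_le (fun u hu => Submodule.mem_sup_left (hK g hg u hu)) fun i hi => ?_
    rintro _ ⟨u, hu, rfl⟩
    refine le_WS hi ⟨ρ (t ^ (-i) * g * (t ^ (-i))⁻¹) u, hU _ (ht _ g hg) u hu, ?_⟩
    rw [← rep_mul, ← rep_mul]
    exact congrArg (fun y => ρ y u) (by group)
  exact fun u hu => this hu

end W

theorem step (api : HallApi ρ A) (hA : A.Normal) {H H' : Subgroup G} (hAH : A ≤ H)
    (hN : IsNoetherianRing (MonoidAlgebra k H)) (hc : Cyc H H') (hP : PH ρ A H) :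
    PH ρ A H' := by
  intro K T hK
  obtain ⟨hle, hnz, t, ht, rfl⟩ := hc
  have hU := invS_genS ρ H (↑T : Set M)
  have hKt : ∀ i : ℤ, ∀ u ∈ K, ρ (t ^ i) u ∈ K := fun i => hK _ (zpow_mem ht i)
  have hW : ∀ S, InvS ρ H (WS ρ K (genS ρ H ↑T) t S) :=
    invS_WS (InvS_mono hle hK) hU fun i => hnz _ (zpow_mem ht i)
  have hWA : ∀ S, InvS ρ A (WS ρ K (genS ρ H ↑T) t S) := fun S => InvS_mono hAH (hW S)
  have hfull : WS ρ K (genS ρ H ↑T) t Set.univ = K ⊔ genS ρ (H ⊔ Subgroup.zpowers t) ↑T := by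
    refine le_antisymm (WS_le le_sup_left fun i _ => le_sup_of_le_right ?_)
      (sup_le le_sup_left (genS_le (fun g hg => ?_) fun x hx => ?_))
    · rintro _ ⟨u, hu, rfl⟩
      exact invS_genS ρ _ _ _ (zpow_mem ht i) u
        (genS_le (InvS_mono hle (invS_genS ρ _ _)) (fun x hx => mem_genS ρ _ hx) hu)
    · have hz : ∀ i : ℤ, ∀ u ∈ WS ρ K (genS ρ H ↑T) t Set.univ,
          ρ (t ^ i) u ∈ WS ρ K (genS ρ H ↑T) t Set.univ := fun i u hu =>
        WS_map_le hKt (fun _ _ => Set.mem_univ _) ⟨u, hu, rfl⟩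
      rw [Subgroup.sup_eq_closure] at hg
      induction hg using Subgroup.closure_induction'' with
      | mem x hx =>
        rcases hx with hx | ⟨i, rfl⟩
        · exact hW _ x hx
        · exact hz i
      | inv_mem x hx =>
        rcases hx with hx | ⟨i, rfl⟩
        · exact hW _ x⁻¹ (H.inv_mem hx)
        · intro u hu
          have := hz (-i) u hu
          rwa [zpow_neg] at this
      | one => intro u hu; rwa [map_one]
      | mul x y _ _ hx hy => intro u hu; rw [rep_mul]; exact hx _ (hy u hu)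
    · refine le_WS (Set.mem_univ 0) ⟨x, mem_genS ρ H hx, ?_⟩
      rw [zpow_zero, map_one]
      rfl
  have h1 := fam api hA hAH hN hP T
    (fun n => WS ρ K (genS ρ H ↑T) t {i | -(n : ℤ) ≤ i ∧ i < 0})
    (fun a b hab => WS_mono fun i hi => ⟨by have := hi.1; omega, hi.2⟩) fun n => hW _
  have h2 := fam api hA hAH hN hP T (fun _ => WS ρ K (genS ρ H ↑T) t {i | 1 ≤ i})
    (fun _ _ _ => le_rfl) fun _ => hW _
  refine (h1.and api h2).mono fun ψ hψ => ?_
  have s1 := api.union ψ (fun n => WS ρ K (genS ρ H ↑T) t {i | 0 ≤ i ∧ i < (n : ℤ)})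
    (fun a b hab => WS_mono fun i hi => ⟨hi.1, by have := hi.2; omega⟩) (fun n => hWA _)
    fun n => by
      have := hψ.1 n (t ^ (n : ℤ))
      rw [WS_map hKt (S' := {i | 0 ≤ i ∧ i < (n : ℤ)})
        (fun i => by simp only [Set.mem_ofPred_eq]; omega)] at this
      rwa [WS_insert (S := {i | 0 ≤ i ∧ i < (n : ℤ)}) (j := n)
        (S' := {i | 0 ≤ i ∧ i < ((n + 1 : ℕ) : ℤ)})
        (fun i => by simp only [Set.mem_ofPred_eq]; omega)]
  have s2 := api.union ψ (fun n => WS ρ K (genS ρ H ↑T) t {i | -(n : ℤ) ≤ i})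
    (fun a b hab => WS_mono fun i hi => by
      simp only [Set.mem_ofPred_eq] at hi ⊢; omega) (fun n => hWA _)
    fun n => by
      have := hψ.2 0 (t ^ (-((n : ℤ) + 1)))
      rw [WS_map hKt (S' := {i | -(n : ℤ) ≤ i})
        (fun i => by simp only [Set.mem_ofPred_eq]; omega)] at this
      rwa [WS_insert (S := {i | -(n : ℤ) ≤ i}) (j := -((n : ℤ) + 1))
        (S' := {i | -((n + 1 : ℕ) : ℤ) ≤ i})
        (fun i => by simp only [Set.mem_ofPred_eq]; omega)]
  rw [WS_iSup (S' := {i | -((0 : ℕ) : ℤ) ≤ i}) (fun i => ⟨fun hi => ⟨i.toNat + 1, by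
      simp only [Set.mem_ofPred_eq] at hi ⊢; omega⟩, fun ⟨n, hn⟩ => by
      simp only [Set.mem_ofPred_eq] at hn ⊢; omega⟩)] at s1
  rw [WS_iSup (S' := Set.univ) (fun i => ⟨fun _ => ⟨(-i).toNat, by
      simp only [Set.mem_ofPred_eq]; omega⟩, fun _ => Set.mem_univ _⟩)] at s2
  have e0 : WS ρ K (genS ρ H ↑T) t {i | 0 ≤ i ∧ i < ((0 : ℕ) : ℤ)} = K :=
    le_antisymm (WS_le le_rfl fun i hi => by
      simp only [Set.mem_ofPred_eq] at hi; omega) le_sup_left
  rw [e0] at s1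
  rw [← hfull]
  exact api.trans ψ _ _ _ le_sup_left (WS_mono (Set.subset_univ _))
    (InvS_mono (hAH.trans hle) hK) (hWA _) (hWA _) s1 s2

end Main

theorem hall : SHall1 → PCApi → SNoe → SHall := by
  intro h1 pc noe k G M _ _ _ _ ρ hG A hA hc ht T hT v hv
  have api := h1 k G M ρ A hA hc ht
  obtain ⟨n, hn⟩ := hG
  have hN : ∀ H : Subgroup G, IsNoetherianRing (MonoidAlgebra k H) := fun H =>
    noe k H ⟨n, pc.sub n G H H.subtype H.subtype_injective hn⟩
  have ind : ∀ (m : ℕ) (H L : Subgroup G), PCr m H L → A ≤ H ∧ PH ρ A H → A ≤ L ∧ PH ρ A L := by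
    intro m H L h h0
    induction h with
    | refl => exact h0
    | fin _ hc _ ih => exact ⟨(ih h0).1.trans hc.1, step api hA (ih h0).1 (hN _) hc (ih h0).2⟩
    | inf _ hc ih => exact ⟨(ih h0).1.trans hc.1, step api hA (ih h0).1 (hN _) hc (ih h0).2⟩
  have base : PH ρ A A := fun K T hK => by
    obtain ⟨μ, h0, hs, h⟩ := api.base K T hK
    exact ⟨μ, h0, hs, fun ψ hψ h2 => h ψ hψ (h2 1)⟩
  have hb : InvS ρ ⊤ (⊥ : Submodule k M) := fun g _ u hu => by
    rw [(Submodule.mem_bot k).1 hu, map_zero]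
    exact zero_mem _
  obtain ⟨μ, h0, hs, h⟩ := (ind n A ⊤ (pc.rel n G A hA hn) ⟨le_rfl, base⟩).2 ⊥ T hb
  refine ⟨μ, h0, hs, fun ψ hψ h2 e => ?_⟩
  have h3 := (h ψ hψ h2 ⊥ (InvS_mono le_top hb) inf_le_left).2
  rw [← gen_eq, hT, sup_idem, sup_top_eq, sup_top_eq, e, sup_top_eq] at h3
  obtain ⟨x, hx0, hxs, hx⟩ := h3 le_rfl v trivial
  exact hx0 (hv x hxs ((Submodule.mem_bot k).1 hx))

end Pool.Agent.MP_6a4325_al.H33
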